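import Pool.Agent.Lead.Fpp11

set_option autoImplicit false

namespace Pool.Agent.Results.MP_c7efa6_co.Counter

/-- The comparability graph of an ordered set. -/
def comp (P : Type) [PartialOrder P] : SimpleGraph P where
  Adj x y := x ≠ y ∧ (x ≤ y ∨ y ≤ x)
  symm := ⟨fun _ _ h => ⟨h.1.symm, h.2.symm⟩⟩
  loopless := ⟨fun _ h => h.1 rfl⟩

/-- The clique graph: vertices are the maximal cliques, adjacent when distinct and intersecting. -/
def cliqueGraph {V : Type} (G : SimpleGraph V) : SimpleGraph {s : Set V // Maximal G.IsClique s} where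
  Adj s t := s ≠ t ∧ (s.1 ∩ t.1).Nonempty
  symm := ⟨fun _ _ h => ⟨h.1.symm, by rw [Set.inter_comm]; exact h.2⟩⟩
  loopless := ⟨fun _ h => h.1 rfl⟩

/-- The clique graph operator on graphs bundled with their vertex type. -/
def K (G : Σ V : Type, SimpleGraph V) : Σ V : Type, SimpleGraph V := ⟨_, cliqueGraph G.2⟩

def Ess {V : Type} (G : SimpleGraph V) : Prop :=
  ∃ c : V → V → ℤ, (∀ u v w, (u = v ∨ G.Adj u v) → (v = w ∨ G.Adj v w) → (u = w ∨ G.Adj u w) →
    c u v + c v w = c u w) ∧ ¬ ∃ φ : V → ℤ, ∀ u v, (u = v ∨ G.Adj u v) → c u v = φ v - φ u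

lemma Ess.nontrivial {V : Type} {G : SimpleGraph V} (h : Ess G) : Nontrivial V := by
  obtain ⟨c, hc, hn⟩ := h
  by_contra hV
  rw [not_nontrivial_iff_subsingleton] at hV
  refine hn ⟨0, fun u v _ => ?_⟩
  obtain rfl := Subsingleton.elim u v
  have := hc u u u (Or.inl rfl) (Or.inl rfl) (Or.inl rfl)
  simp only [Pi.zero_apply]
  omega

lemma exists_max {V : Type} (G : SimpleGraph V) {s : Set V} (hs : G.IsClique s) :
    ∃ m, s ⊆ m ∧ Maximal G.IsClique m := by
  refine zorn_subset_nonempty {t | G.IsClique t} (fun c hc hch _ => ⟨⋃₀ c, ?_,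
    fun t ht => Set.subset_sUnion_of_mem ht⟩) s hs
  rintro x ⟨t, ht, hx⟩ y ⟨u, hu, hy⟩ hne
  rcases hch.total ht hu with h | h
  · exact hc hu (h hx) hy hne
  · exact hc ht hx (h hy) hne

lemma Ess.clique {V : Type} {G : SimpleGraph V} (h : Ess G) : Ess (cliqueGraph G) := by
  classical
  have hV := h.nontrivial
  obtain ⟨c, hc, hn⟩ := h
  have hne : ∀ Q : {s : Set V // Maximal G.IsClique s}, Q.1.Nonempty := by
    intro Q
    by_contra h
    rw [Set.not_nonempty_iff_eq_empty] at h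
    obtain ⟨v⟩ : Nonempty V := inferInstance
    have := Q.2.le_of_ge (y := {v}) (SimpleGraph.isClique_singleton v) (by simp [h])
    rw [h] at this
    exact this rfl
  choose b hb using hne
  have hA : ∀ (Q : {s : Set V // Maximal G.IsClique s}) x y, x ∈ Q.1 → y ∈ Q.1 →
      x = y ∨ G.Adj x y := fun Q x y hx hy => by
    by_cases h : x = y
    · exact Or.inl h
    · exact Or.inr (Q.2.prop hx hy h)
  have tri : ∀ (Q : {s : Set V // Maximal G.IsClique s}) x y z, x ∈ Q.1 → y ∈ Q.1 → z ∈ Q.1 →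
      c x y + c y z = c x z := fun Q x y z hx hy hz =>
    hc _ _ _ (hA Q _ _ hx hy) (hA Q _ _ hy hz) (hA Q _ _ hx hz)
  let c' : {s : Set V // Maximal G.IsClique s} → {s : Set V // Maximal G.IsClique s} → ℤ :=
    fun Q R => if h : (Q.1 ∩ R.1).Nonempty then c (b Q) h.some + c h.some (b R) else 0
  have hc' : ∀ Q R x, x ∈ Q.1 → x ∈ R.1 → c' Q R = c (b Q) x + c x (b R) := by
    intro Q R x h1 h2
    have h : (Q.1 ∩ R.1).Nonempty := ⟨x, h1, h2⟩
    have e : c' Q R = c (b Q) h.some + c h.some (b R) := dif_pos h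
    have a1 := tri Q _ _ _ (hb Q) h1 h.some_mem.1
    have a2 := tri R _ _ _ h2 h.some_mem.2 (hb R)
    omega
  have hint : ∀ Q R, (Q = R ∨ (cliqueGraph G).Adj Q R) → ∃ x, x ∈ Q.1 ∧ x ∈ R.1 := by
    rintro Q R (rfl | h)
    · exact ⟨b Q, hb Q, hb Q⟩
    · exact h.2
  refine ⟨c', fun Q R S h1 h2 h3 => ?_, ?_⟩
  · obtain ⟨x, xQ, xR⟩ := hint _ _ h1
    obtain ⟨y, yR, yS⟩ := hint _ _ h2
    obtain ⟨z, zQ, zS⟩ := hint _ _ h3
    rw [hc' _ _ x xQ xR, hc' _ _ y yR yS, hc' _ _ z zQ zS]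
    have a1 := tri R _ _ _ xR (hb R) yR
    have a2 := tri Q _ _ _ (hb Q) xQ zQ
    have a3 := tri S _ _ _ zS yS (hb S)
    have a4 := hc x z y (hA Q _ _ xQ zQ) (hA S _ _ zS yS) (hA R _ _ xR yR)
    omega
  · rintro ⟨φ, hφ⟩
    have hφ' : ∀ Q R x, x ∈ Q.1 → x ∈ R.1 → c (b Q) x + c x (b R) = φ R - φ Q := by
      intro Q R x h1 h2
      rw [← hc' Q R x h1 h2]
      refine hφ _ _ ?_
      by_cases h : Q = R
      · exact Or.inl h
      · exact Or.inr ⟨h, x, h1, h2⟩
    have hQ : ∀ v, ∃ Q : {s : Set V // Maximal G.IsClique s}, v ∈ Q.1 := fun v => by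
      obtain ⟨m, h1, h2⟩ := exists_max G (SimpleGraph.isClique_singleton v)
      exact ⟨⟨m, h2⟩, h1 rfl⟩
    choose q hq using hQ
    refine hn ⟨fun v => φ (q v) - c v (b (q v)), fun u v huv => ?_⟩
    have hcl : G.IsClique {u, v} := by
      rcases huv with rfl | h
      · simp
      · exact SimpleGraph.isClique_pair.2 fun _ => h
    obtain ⟨m, h1, h2⟩ := exists_max G hcl
    have hu : u ∈ m := h1 (by simp)
    have hv : v ∈ m := h1 (by simp)
    have a1 := hφ' ⟨m, h2⟩ (q u) u hu (hq u)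
    have a2 := hφ' ⟨m, h2⟩ (q v) v hv (hq v)
    have a3 := tri ⟨m, h2⟩ _ _ _ (hb _) hu hv
    simp only
    omega

open Pool.Agent.Lead.Fpp11

def t (u v : Fin 11) : ℤ :=
  if (u.1, v.1) ∈ [(5, 0), (5, 9), (2, 9), (7, 9), (1, 9), (2, 10), (5, 10)] then 1 else 0

lemma ess : Ess (comp X) := by
  have hA : ∀ u v : Fin 11, (@Eq X u v ∨ (comp X).Adj u v) ↔ (leX u v ∨ leX v u) := by
    intro u v
    constructor
    · rintro (rfl | h)
      · exact Or.inl (le_refl (α := X) u)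
      · exact h.2
    · intro h
      by_cases e : @Eq X u v
      · exact Or.inl e
      · exact Or.inr ⟨e, h⟩
  refine ⟨fun u v => t u v - t v u, fun u v w h1 h2 h3 => ?_, ?_⟩
  · have : ∀ u v w : Fin 11, (leX u v ∨ leX v u) → (leX v w ∨ leX w v) → (leX u w ∨ leX w u) →
        (t u v - t v u) + (t v w - t w v) = t u w - t w u := by decide +kernel
    exact this u v w ((hA _ _).1 h1) ((hA _ _).1 h2) ((hA _ _).1 h3)
  · rintro ⟨φ, hφ⟩
    have h : ∀ u v : Fin 11, (leX u v ∨ leX v u) → t u v - t v u = φ v - φ u :=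
      fun u v h => hφ u v ((hA _ _).2 h)
    have a1 := h 0 4 (by decide +kernel)
    have a2 := h 4 3 (by decide +kernel)
    have a3 := h 3 6 (by decide +kernel)
    have a4 := h 6 1 (by decide +kernel)
    have a5 := h 1 7 (by decide +kernel)
    have a6 := h 7 2 (by decide +kernel)
    have a7 := h 2 5 (by decide +kernel)
    have a8 := h 5 0 (by decide +kernel)
    have e : (t 0 4 - t 4 0) + (t 4 3 - t 3 4) + (t 3 6 - t 6 3) + (t 6 1 - t 1 6) +
      (t 1 7 - t 7 1) + (t 7 2 - t 2 7) + (t 2 5 - t 5 2) + (t 5 0 - t 0 5) = 1 := by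
      decide +kernel
    omega

theorem result : ∃ (P : Type) (_ : PartialOrder P), Finite P ∧ Nonempty P ∧
    (∀ f : P →o P, ∃ x, f x = x) ∧ ∀ n : ℕ, Nontrivial (K^[n] ⟨P, comp P⟩).1 := by
  refine ⟨X, inferInstance, inferInstance, ⟨(0 : Fin 11)⟩, fpp, fun n => ?_⟩
  have : Ess (K^[n] ⟨X, comp X⟩).2 := by
    induction n with
    | zero => exact ess
    | succ n ih =>
      rw [Function.iterate_succ_apply']
      exact ih.clique
  exact this.nontrivial

end Pool.Agent.Results.MP_c7efa6_co.Counter
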